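import Pool.Agent.Helper902.SlBR

/-!
# MP_7e7193_an : the Bishop-Phelps-Bollobas modulus of `(X, ℝ)` is at most `min {√(2ε), 1}`

The bound `1` is obtained by separating the open unit ball of `X ⊕_∞ X` from the affine set
`{(v, v - x) : x*(v) ≥ M}`, `M` the supremum of `x*` over `B_X ∩ (x + B_X)`; the separating
functional is a pair `(p, q)` with `p + q = c x*`, one of `p / ‖p‖`, `q / ‖q‖` is within `1` of
`x*` and almost attains its norm at a point within `1` of `± x`; the quantitative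
Bishop-Phelps theorem finishes the proof.
-/

namespace Pool.Agent.Results.MP_7e7193_an.SphericalModulus

open Set

section Defs

variable (X : Type*) [NormedAddCommGroup X] [NormedSpace ℝ X]

/-- `δ` has the property in the definition of `Φ^S(X, ℝ, ε)`. -/
def Admissible (ε δ : ℝ) : Prop :=
  ∀ (x : X) (f : X →L[ℝ] ℝ), ‖x‖ = 1 → ‖f‖ = 1 → 1 - ε < f x →
    ∃ (y : X) (g : X →L[ℝ] ℝ), ‖y‖ = 1 ∧ ‖g‖ = 1 ∧ |g y| = 1 ∧ ‖x - y‖ < δ ∧ ‖f - g‖ < δ

/-- `Φ^S(X, ℝ, ε)`. -/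
noncomputable def modulus (ε : ℝ) : ℝ := sInf {δ : ℝ | 0 < δ ∧ Admissible X ε δ}

end Defs

variable {X : Type*} [NormedAddCommGroup X] [NormedSpace ℝ X]

lemma norm_eq_of_max (Φ : X →L[ℝ] ℝ) (y : X) (hy : ‖y‖ ≤ 1)
    (h : ∀ z ∈ Metric.closedBall (0 : X) 1, Φ z ≤ Φ y) : Φ y = ‖Φ‖ := by
  have h0 : 0 ≤ Φ y := by
    have := h 0 (by simp)
    simpa using this
  apply le_antisymm
  · have h1 := Φ.le_opNorm y
    have h2 := mul_le_mul_of_nonneg_left hy (norm_nonneg Φ)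
    exact (le_abs_self _).trans (h1.trans (by linarith))
  · refine Φ.opNorm_le_bound h0 fun z => ?_
    rcases eq_or_ne z 0 with rfl | hz
    · simp
    have hz' : 0 < ‖z‖ := norm_pos_iff.mpr hz
    have key : ∀ w : X, ‖w‖ = ‖z‖ → Φ w ≤ Φ y * ‖z‖ := fun w hw => by
      have h1 := h (‖z‖⁻¹ • w) (by
        rw [mem_closedBall_zero_iff, norm_smul, norm_inv, norm_norm, hw,
          inv_mul_cancel₀ hz'.ne'])
      rw [map_smul, smul_eq_mul, inv_mul_le_iff₀ hz'] at h1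
      linarith
    rw [Real.norm_eq_abs, abs_le]
    have h1 := key z rfl
    have h2 := key (-z) (norm_neg z)
    rw [map_neg] at h2
    constructor <;> linarith

/-- Quantitative Bishop-Phelps theorem (Phelps, Bollobas). -/
lemma bpb [CompleteSpace X] (z : X) (f : X →L[ℝ] ℝ) (hz : ‖z‖ ≤ 1) (hf : ‖f‖ = 1) (k : ℝ)
    (hk : 0 < k) (hk1 : k < 1) :
    ∃ (y : X) (g : X →L[ℝ] ℝ), ‖y‖ = 1 ∧ ‖g‖ = 1 ∧ g y = 1 ∧ k * ‖y - z‖ ≤ 1 - f z ∧
      ‖f - g‖ ≤ 2 * k := by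
  obtain ⟨Φ, y, hy, h1, h2, h3⟩ := Pool.Agent.Helper902.Sl.brondsted_rockafellar
    (Metric.closedBall (0 : X) 1) Metric.isClosed_closedBall (convex_closedBall _ _) f z
    (by simpa using hz) (1 - f z) (fun w hw => by
      have h4 := f.le_opNorm w
      rw [hf, one_mul] at h4
      rw [mem_closedBall_zero_iff] at hw
      have := le_abs_self (f w)
      rw [Real.norm_eq_abs] at h4
      linarith) k hk
  rw [mem_closedBall_zero_iff] at hy
  have h4 := norm_eq_of_max Φ y hy h3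
  have h5 : |‖Φ‖ - 1| ≤ k := by
    have := abs_norm_sub_norm_le Φ f
    rw [hf] at this
    exact this.trans h1
  have h6 : 0 < ‖Φ‖ := by
    have := (abs_le.mp h5).1
    linarith
  have hy1 : ‖y‖ = 1 := by
    apply le_antisymm hy
    have h7 := Φ.le_opNorm y
    rw [h4, Real.norm_eq_abs, abs_of_pos h6] at h7
    by_contra h8
    push Not at h8
    nlinarith
  refine ⟨y, ‖Φ‖⁻¹ • Φ, hy1, ?_, ?_, h2, ?_⟩
  · rw [norm_smul, norm_inv, norm_norm, inv_mul_cancel₀ h6.ne']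
  · show ‖Φ‖⁻¹ • Φ y = 1
    rw [h4, smul_eq_mul, inv_mul_cancel₀ h6.ne']
  · have h7 : ‖Φ - ‖Φ‖⁻¹ • Φ‖ ≤ k := by
      have h8 : Φ - ‖Φ‖⁻¹ • Φ = (1 - ‖Φ‖⁻¹) • Φ := by
        ext w
        show Φ w - ‖Φ‖⁻¹ * Φ w = (1 - ‖Φ‖⁻¹) * Φ w
        ring
      rw [h8, norm_smul, Real.norm_eq_abs]
      have h9 : |1 - ‖Φ‖⁻¹| * ‖Φ‖ = |‖Φ‖ - 1| := by
        have h10 : |1 - ‖Φ‖⁻¹| * |‖Φ‖| = |‖Φ‖ - 1| := by
          rw [← abs_mul]
          congr 1
          field_simp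
        rwa [abs_of_pos h6] at h10
      rw [h9]
      exact h5
    have h8 : f - ‖Φ‖⁻¹ • Φ = (f - Φ) + (Φ - ‖Φ‖⁻¹ • Φ) := by abel
    rw [h8]
    have h9 := norm_add_le (f - Φ) (Φ - ‖Φ‖⁻¹ • Φ)
    have h10 : ‖f - Φ‖ ≤ k := by rw [norm_sub_rev]; exact h1
    linarith

lemma exists_near (p : X →L[ℝ] ℝ) (r : ℝ) (hr : r < ‖p‖) : ∃ a : X, ‖a‖ < 1 ∧ r < p a := by
  obtain ⟨a, ha, hra⟩ := p.exists_lt_apply_of_lt_opNorm hr
  rw [Real.norm_eq_abs] at hra
  rcases le_total 0 (p a) with h | h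
  · exact ⟨a, ha, by rwa [abs_of_nonneg h] at hra⟩
  · refine ⟨-a, by rwa [norm_neg], ?_⟩
    rw [abs_of_nonpos h] at hra
    rwa [map_neg]

/-- A norm bound from an upper bound on the open ball. -/
lemma prod_bound (p q : X →L[ℝ] ℝ) (s : ℝ)
    (h : ∀ a b : X, ‖a‖ < 1 → ‖b‖ < 1 → p a + q b < s) : ‖p‖ + ‖q‖ ≤ s := by
  refine le_of_forall_pos_le_add fun η hη => ?_
  obtain ⟨a, ha, ha'⟩ := exists_near p (‖p‖ - η / 2) (by linarith)
  obtain ⟨b, hb, hb'⟩ := exists_near q (‖q‖ - η / 2) (by linarith)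
  have := h a b ha hb
  linarith

lemma le_norm_of_ball (p : X →L[ℝ] ℝ) (v : X) (hv : ‖v‖ ≤ 1) : p v ≤ ‖p‖ := by
  have h1 := p.le_opNorm v
  have h2 := mul_le_mul_of_nonneg_left hv (norm_nonneg p)
  rw [mul_one] at h2
  exact (le_abs_self _).trans (h1.trans h2)

/-- The separation argument. -/
lemma separation (x : X) (f : X →L[ℝ] ℝ) (hx : ‖x‖ = 1) (hf : ‖f‖ = 1) :
    ∃ (p q : X →L[ℝ] ℝ) (c : ℝ), 0 < c ∧ p + q = c • f ∧ ‖p‖ ≤ c ∧ ‖q‖ ≤ c ∧
      ∀ η > 0, ∃ v : X, ‖v‖ ≤ 1 ∧ ‖v - x‖ ≤ 1 ∧ ‖p‖ - η ≤ p v ∧ ‖q‖ - η ≤ q (v - x) := by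
  classical
  -- the supremum of `f` over `C = B ∩ (x + B)`
  let C : Set X := {v | ‖v‖ ≤ 1 ∧ ‖v - x‖ ≤ 1}
  have hC0 : (0 : X) ∈ C := ⟨by simp, by simp [hx]⟩
  have hbdd : BddAbove (f '' C) := by
    refine ⟨1, ?_⟩
    rintro _ ⟨v, hv, rfl⟩
    have := le_norm_of_ball f v hv.1
    rwa [hf] at this
  set M : ℝ := sSup (f '' C) with hM
  have hMle : ∀ v ∈ C, f v ≤ M := fun v hv => le_csSup hbdd ⟨v, hv, rfl⟩
  have hM1 : M ≤ 1 := csSup_le ⟨_, 0, hC0, rfl⟩ (by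
    rintro _ ⟨v, hv, rfl⟩
    have := le_norm_of_ball f v hv.1
    rwa [hf] at this)
  have hM2 : M - f x ≤ 1 := by
    have : M ≤ 1 + f x := csSup_le ⟨_, 0, hC0, rfl⟩ (by
      rintro _ ⟨v, hv, rfl⟩
      have := le_norm_of_ball f (v - x) hv.2
      rw [hf, map_sub] at this
      linarith)
    linarith
  -- a vector with `f w = 1`
  obtain ⟨w0, -, hw0⟩ := exists_near f 0 (by rw [hf]; exact one_pos)
  obtain ⟨w, hw⟩ : ∃ w : X, f w = 1 := ⟨(f w0)⁻¹ • w0, by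
    rw [map_smul, smul_eq_mul, inv_mul_cancel₀ hw0.ne']⟩
  -- the sets to be separated
  let U : Set (X × X) := {a | ‖a.1‖ < 1 ∧ ‖a.2‖ < 1}
  let L : Set (X × X) := {a | M ≤ f a.1 ∧ a.2 = a.1 - x}
  have hUo : IsOpen U := by
    exact (isOpen_lt (continuous_norm.comp continuous_fst) continuous_const).inter
      (isOpen_lt (continuous_norm.comp continuous_snd) continuous_const)
  have hUc : Convex ℝ U := by
    rintro ⟨a1, a2⟩ ⟨ha1, ha2⟩ ⟨b1, b2⟩ ⟨hb1, hb2⟩ s t hs ht hst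
    have key : ∀ a b : X, ‖a‖ < 1 → ‖b‖ < 1 → ‖s • a + t • b‖ < 1 := by
      intro a b ha hb
      have := (convex_ball (0 : X) 1) (by simpa using ha : a ∈ Metric.ball (0 : X) 1)
        (by simpa using hb : b ∈ Metric.ball (0 : X) 1) hs ht hst
      simpa using this
    exact ⟨key a1 b1 ha1 hb1, key a2 b2 ha2 hb2⟩
  have hLc : Convex ℝ L := by
    rintro ⟨a1, a2⟩ ⟨ha1, ha2⟩ ⟨b1, b2⟩ ⟨hb1, hb2⟩ s t hs ht hst
    simp only at ha1 ha2 hb1 hb2
    refine ⟨?_, ?_⟩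
    · show M ≤ f (s • a1 + t • b1)
      rw [map_add, map_smul, map_smul, smul_eq_mul, smul_eq_mul]
      have e1 := mul_le_mul_of_nonneg_left ha1 hs
      have e2 := mul_le_mul_of_nonneg_left hb1 ht
      have e3 : M = s * M + t * M := by rw [← add_mul, hst, one_mul]
      linarith
    · show s • a2 + t • b2 = s • a1 + t • b1 - x
      have e3 : x = s • x + t • x := by rw [← add_smul, hst, one_smul]
      rw [ha2, hb2]
      conv_rhs => rw [e3]
      rw [smul_sub, smul_sub]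
      abel
  have hdisj : Disjoint U L := by
    rw [Set.disjoint_left]
    rintro ⟨a, b⟩ ⟨h1, h2⟩ ⟨h3, h4⟩
    simp only at h1 h2 h3 h4
    subst h4
    -- push `a` in the direction `w`
    have hcont : Continuous fun t : ℝ => (‖a + t • w‖, ‖a + t • w - x‖) := by fun_prop
    have hnear : ∀ᶠ t : ℝ in nhds 0, ‖a + t • w‖ < 1 ∧ ‖a + t • w - x‖ < 1 := by
      have e1 : ∀ᶠ t : ℝ in nhds 0, ‖a + t • w‖ < 1 :=
        (Continuous.tendsto (by fun_prop : Continuous fun t : ℝ => ‖a + t • w‖) 0).eventually_lt_const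
          (by simpa using h1)
      have e2 : ∀ᶠ t : ℝ in nhds 0, ‖a + t • w - x‖ < 1 :=
        (Continuous.tendsto (by fun_prop : Continuous fun t : ℝ => ‖a + t • w - x‖) 0).eventually_lt_const
          (by simpa using h2)
      exact e1.and e2
    obtain ⟨δ, hδ, hball⟩ := Metric.eventually_nhds_iff.mp hnear
    have h5 := hball (y := δ / 2) (by
      rw [Real.dist_eq, sub_zero, abs_of_pos (by positivity)]; linarith)
    have h6 := hMle (a + (δ / 2) • w) ⟨h5.1.le, h5.2.le⟩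
    rw [map_add, map_smul, hw, smul_eq_mul, mul_one] at h6
    linarith
  obtain ⟨F, s, hFU, hFL⟩ := geometric_hahn_banach_open hUc hUo hLc hdisj
  let p : X →L[ℝ] ℝ := F.comp (ContinuousLinearMap.inl ℝ X X)
  let q : X →L[ℝ] ℝ := F.comp (ContinuousLinearMap.inr ℝ X X)
  have hF : ∀ a b : X, F (a, b) = p a + q b := by
    intro a b
    show F (a, b) = F (a, 0) + F (0, b)
    rw [← map_add]
    simp
  have hPQ : ‖p‖ + ‖q‖ ≤ s := prod_bound p q s fun a b ha hb => by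
    rw [← hF]
    exact hFU _ ⟨ha, hb⟩
  have hs : 0 < s := by
    have := hFU 0 ⟨by simp, by simp⟩
    simpa using this
  have hL : ∀ v : X, M ≤ f v → s + q x ≤ p v + q v := by
    intro v hv
    have h1 := hFL (v, v - x) ⟨hv, rfl⟩
    rw [hF, map_sub] at h1
    linarith
  set c : ℝ := p w + q w with hc
  -- `p + q` vanishes on the kernel of `f`
  have hker : ∀ h : X, f h = 0 → p h + q h = 0 := by
    intro h hh
    by_contra hne
    have key : ∀ t : ℝ, s + q x ≤ M * c + t * (p h + q h) := by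
      intro t
      have h1 := hL (M • w + t • h) (by
        rw [map_add, map_smul, map_smul, hh, hw]; simp)
      simp only [map_add, map_smul, smul_eq_mul] at h1
      rw [hc]
      linarith
    have h1 := key ((s + q x - M * c - 1) / (p h + q h))
    rw [div_mul_cancel₀ _ hne] at h1
    linarith
  have hpq : ∀ v : X, p v + q v = c * f v := by
    intro v
    have h1 := hker (v - f v • w) (by rw [map_sub, map_smul, hw]; simp)
    simp only [map_sub, map_smul, smul_eq_mul] at h1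
    rw [hc]
    linarith
  have hMw := hL (M • w) (by rw [map_smul, hw]; simp)
  rw [hpq, map_smul, hw, smul_eq_mul, mul_one] at hMw
  have hc0 : 0 ≤ c := by
    by_contra hneg
    push Not at hneg
    have h1 := hL ((M + (|s + q x - c * M| + 1) / (-c)) • w) (by
      rw [map_smul, hw, smul_eq_mul, mul_one]
      have : 0 ≤ (|s + q x - c * M| + 1) / (-c) := by
        apply div_nonneg (by positivity)
        linarith
      linarith)
    rw [hpq, map_smul, hw, smul_eq_mul, mul_one, mul_add] at h1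
    have h2 : c * ((|s + q x - c * M| + 1) / (-c)) = -(|s + q x - c * M| + 1) := by
      have : c ≠ 0 := hneg.ne
      field_simp
    rw [h2] at h1
    have h3 := neg_abs_le (s + q x - c * M)
    linarith
  have hqx : -‖q‖ ≤ q x := by
    have h1 := le_norm_of_ball q (-x) (by rw [norm_neg, hx])
    rw [map_neg] at h1
    linarith
  have hpx : p x ≤ ‖p‖ := le_norm_of_ball p x hx.le
  have hcp : ‖p‖ ≤ c := by
    have h1 : c * M ≤ c * 1 := mul_le_mul_of_nonneg_left hM1 hc0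
    linarith
  have hcq : ‖q‖ ≤ c := by
    have h1 : c * (M - f x) ≤ c * 1 := mul_le_mul_of_nonneg_left hM2 hc0
    have h2 := hpq x
    rw [mul_sub] at h1
    linarith
  have hcpos : 0 < c := by
    rcases hc0.eq_or_lt with h | h
    · exfalso
      have h1 : ‖p‖ = 0 := le_antisymm (h ▸ hcp) (norm_nonneg _)
      have h2 : ‖q‖ = 0 := le_antisymm (h ▸ hcq) (norm_nonneg _)
      rw [h2, neg_zero] at hqx
      rw [← h, zero_mul] at hMw
      linarith
    · exact h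
  refine ⟨p, q, c, hcpos, ?_, hcp, hcq, ?_⟩
  · ext v
    exact hpq v
  · intro η hη
    obtain ⟨_, ⟨v, hv, rfl⟩, hv2⟩ := exists_lt_of_lt_csSup (show (f '' C).Nonempty from ⟨_, 0, hC0, rfl⟩)
      (show M - η / c < sSup (f '' C) by
        have : 0 < η / c := by positivity
        linarith)
    refine ⟨v, hv.1, hv.2, ?_⟩
    have h1 := hpq v
    have h2 : c * M - η ≤ c * f v := by
      have h3 := mul_le_mul_of_nonneg_left hv2.le hc0
      rw [mul_sub, mul_div_cancel₀ _ hcpos.ne'] at h3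
      exact h3
    have h4 := le_norm_of_ball p v hv.1
    have h5 := le_norm_of_ball q (v - x) hv.2
    rw [map_sub] at h5 ⊢
    constructor <;> linarith

lemma dist_aux (p q f : X →L[ℝ] ℝ) (c : ℝ) (hc : 0 < c) (hf : ‖f‖ = 1) (hpq : p + q = c • f)
    (hP : ‖p‖ ≤ c) (hQP : ‖q‖ ≤ ‖p‖) : 0 < ‖p‖ ∧ ‖f - ‖p‖⁻¹ • p‖ ≤ 1 := by
  have h0 : 0 < ‖p‖ := by
    by_contra hcon
    have h1 : ‖p‖ = 0 := le_antisymm (not_lt.mp hcon) (norm_nonneg _)
    have h2 : ‖q‖ = 0 := le_antisymm (h1 ▸ hQP) (norm_nonneg _)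
    have h3 := norm_add_le p q
    rw [hpq, norm_smul, hf, mul_one, Real.norm_eq_abs, abs_of_pos hc, h1, h2] at h3
    linarith
  refine ⟨h0, ?_⟩
  have h1 : f - ‖p‖⁻¹ • p = (c⁻¹ - ‖p‖⁻¹) • p + c⁻¹ • q := by
    ext v
    have h2 : p v + q v = c * f v := by
      have := congrArg (fun F : X →L[ℝ] ℝ => F v) hpq
      exact this
    show f v - ‖p‖⁻¹ * p v = (c⁻¹ - ‖p‖⁻¹) * p v + c⁻¹ * q v
    have h3 : f v = c⁻¹ * (p v + q v) := by
      rw [h2, ← mul_assoc, inv_mul_cancel₀ hc.ne', one_mul]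
    rw [h3]
    ring
  rw [h1]
  refine (norm_add_le _ _).trans ?_
  rw [norm_smul, norm_smul, Real.norm_eq_abs, Real.norm_eq_abs, abs_of_pos (inv_pos.mpr hc)]
  have h2 : c⁻¹ ≤ ‖p‖⁻¹ := inv_anti₀ h0 hP
  rw [abs_of_nonpos (by linarith)]
  have h3 : ‖p‖⁻¹ * ‖p‖ = 1 := inv_mul_cancel₀ h0.ne'
  have h4 : c⁻¹ * ‖q‖ ≤ c⁻¹ * ‖p‖ := mul_le_mul_of_nonneg_left hQP (inv_pos.mpr hc).le
  nlinarith

lemma finish [CompleteSpace X] (p f : X →L[ℝ] ℝ) (u : X) (k : ℝ) (hk : 0 < k) (hk1 : k < 1)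
    (hp : 0 < ‖p‖) (hfp : ‖f - ‖p‖⁻¹ • p‖ ≤ 1) (hu : ‖u‖ ≤ 1)
    (hpu : ‖p‖ - ‖p‖ * k * k ≤ p u) :
    ∃ (y : X) (g : X →L[ℝ] ℝ), ‖y‖ = 1 ∧ ‖g‖ = 1 ∧ g y = 1 ∧ ‖y - u‖ ≤ k ∧
      ‖f - g‖ ≤ 1 + 2 * k := by
  obtain ⟨y, g, h1, h2, h3, h4, h5⟩ := bpb u (‖p‖⁻¹ • p) hu (by
    rw [norm_smul, norm_inv, norm_norm, inv_mul_cancel₀ hp.ne']) k hk hk1
  refine ⟨y, g, h1, h2, h3, ?_, ?_⟩
  · have h6 : k * ‖y - u‖ ≤ k * k := by
      refine h4.trans ?_
      have h7 : (‖p‖⁻¹ • p) u = ‖p‖⁻¹ * p u := rfl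
      rw [h7]
      have h8 := mul_le_mul_of_nonneg_left hpu (inv_pos.mpr hp).le
      have h9 : ‖p‖⁻¹ * (‖p‖ - ‖p‖ * k * k) = 1 - k * k := by
        field_simp
      rw [h9] at h8
      linarith
    exact le_of_mul_le_mul_left h6 hk
  · have h6 : f - g = (f - ‖p‖⁻¹ • p) + (‖p‖⁻¹ • p - g) := by abel
    rw [h6]
    have := norm_add_le (f - ‖p‖⁻¹ • p) (‖p‖⁻¹ • p - g)
    linarith

lemma one_bound [CompleteSpace X] (x : X) (f : X →L[ℝ] ℝ) (hx : ‖x‖ = 1) (hf : ‖f‖ = 1)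
    (δ : ℝ) (hδ : 1 < δ) :
    ∃ (y : X) (g : X →L[ℝ] ℝ), ‖y‖ = 1 ∧ ‖g‖ = 1 ∧ |g y| = 1 ∧ ‖x - y‖ < δ ∧ ‖f - g‖ < δ := by
  obtain ⟨p, q, c, hc, hpq, hP, hQ, hv⟩ := separation x f hx hf
  set k : ℝ := min ((δ - 1) / 4) (1 / 2) with hk
  have hk0 : 0 < k := lt_min (by linarith) (by norm_num)
  have hk1 : k < 1 := lt_of_le_of_lt (min_le_right _ _) (by norm_num)
  have hk2 : 1 + 2 * k < δ := by
    have : k ≤ (δ - 1) / 4 := min_le_left _ _
    linarith
  rcases le_total ‖q‖ ‖p‖ with h | h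
  · obtain ⟨h0, h1⟩ := dist_aux p q f c hc hf hpq hP h
    obtain ⟨v, hv1, hv2, hv3, -⟩ := hv (‖p‖ * k * k) (by positivity)
    obtain ⟨y, g, hy, hg, hgy, h2, h3⟩ := finish p f v k hk0 hk1 h0 h1 hv1 hv3
    refine ⟨y, g, hy, hg, by rw [hgy, abs_one], ?_, by linarith⟩
    have h4 : x - y = -((y - v) + (v - x)) := by abel
    rw [h4, norm_neg]
    have := norm_add_le (y - v) (v - x)
    linarith
  · obtain ⟨h0, h1⟩ := dist_aux q p f c hc hf (by rw [add_comm]; exact hpq) hQ h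
    obtain ⟨v, hv1, hv2, -, hv4⟩ := hv (‖q‖ * k * k) (by positivity)
    obtain ⟨y, g, hy, hg, hgy, h2, h3⟩ := finish q f (v - x) k hk0 hk1 h0 h1 hv2 hv4
    refine ⟨-y, g, by rwa [norm_neg], hg, by rw [map_neg, hgy, abs_neg, abs_one], ?_, by linarith⟩
    have h4 : x - -y = (y - (v - x)) + v := by abel
    rw [h4]
    have := norm_add_le (y - (v - x)) v
    linarith

/-- **MP_7e7193_an, Q1, proved.** For every real Banach space `X` and every `ε ∈ (0,2)`,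
`Φ^S(X, ℝ, ε) ≤ min {√(2ε), 1}`. -/
theorem result (X : Type*) [NormedAddCommGroup X] [NormedSpace ℝ X] [CompleteSpace X] (ε : ℝ)
    (h0 : 0 < ε) (h2 : ε < 2) :
    (∀ δ : ℝ, min √(2 * ε) 1 < δ → Admissible X ε δ) ∧ modulus X ε ≤ min √(2 * ε) 1 := by
  have main : ∀ δ : ℝ, min √(2 * ε) 1 < δ → Admissible X ε δ := by
    intro δ hδ x f hx hf hxf
    rcases min_lt_iff.mp hδ with h | h
    · set k : ℝ := √(ε / 2) with hk
      have hk2 : k * k = ε / 2 := Real.mul_self_sqrt (by positivity)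
      have hk0 : 0 < k := Real.sqrt_pos.mpr (by positivity)
      have hk1 : k < 1 := by
        rw [hk, Real.sqrt_lt' one_pos]
        linarith
      have h3 : √(2 * ε) = 2 * k := by
        rw [Real.sqrt_eq_iff_mul_self_eq (by positivity) (by positivity)]
        nlinarith
      rw [h3] at h
      obtain ⟨y, g, hy, hg, hgy, h4, h5⟩ := bpb x f hx.le hf k hk0 hk1
      refine ⟨y, g, hy, hg, by rw [hgy, abs_one], ?_, by linarith⟩
      have h6 : k * ‖y - x‖ < k * (2 * k) := by nlinarith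
      have h7 := lt_of_mul_lt_mul_left h6 hk0.le
      rw [norm_sub_rev]
      linarith
    · exact one_bound x f hx hf δ h
  refine ⟨main, ?_⟩
  have hm : 0 ≤ min √(2 * ε) 1 := le_min (Real.sqrt_nonneg _) zero_le_one
  refine le_of_forall_pos_le_add fun η hη => ?_
  refine csInf_le ⟨0, fun δ hδ => hδ.1.le⟩ ⟨by linarith, main _ (by linarith)⟩

end Pool.Agent.Results.MP_7e7193_an.SphericalModulus
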